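import Pool.Agent.Helper75.Havet.Lev

/-!
# Embedding the in-side of the tree
-/

set_option autoImplicit false

namespace Pool.Helper75.Havet

open Finset Pool.Helper56.Havet
open scoped Classical

variable {V : Type} [Fintype V]

theorem inside {O : V → V → Prop} (hO : ∀ x y, O x y → ¬ O y x) (κ : V → Fin 3) (f : V → ℤ)
    {R : V → V → Prop} (hR : ∀ u w, R u w ↔ (O u w ∧ κ u = 1 ∧ κ w = 1))
    (hmax : ∀ f' : V → ℤ, (univ.filter (fun p : V × V => R p.1 p.2 ∧ f' p.1 < f' p.2)).card ≤
        (univ.filter (fun p : V × V => R p.1 p.2 ∧ f p.1 < f p.2)).card)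
    {ι : Type} (Λ : Finset ι) (a : ι → ℕ) (j : ℕ) (ha : ∀ w ∈ Λ, a w ≤ j)
    (hfront : ∀ w ∈ Λ, a w < j → a w ≤ (Λ.filter (fun w' => a w' < a w)).card)
    (t : ℕ) (ht : (Λ.filter (fun w => a w < j)).card ≤ t) (ht0 : j = 0 → Λ.card ≤ t)
    (hsafe : ∀ v, κ v = 1 →
        t ≤ (univ.filter (fun u => O u v ∧ (κ u = 0 ∨ (κ u = 1 ∧ f u < f v)))).card) :
    ∃ B : Finset V, Col O B (if j = 0 then 0 else j + 2 * (Λ.filter (fun w => a w = j)).card) ∧
      ∀ c, κ c = 1 → c ∉ B → ∃ (x : ℕ → V) (ψ : ι → V), x j = c ∧
        (∀ m < j, O (x m) (x (m + 1))) ∧ (∀ w ∈ Λ, O (ψ w) (x (a w))) ∧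
        (∀ m m', m ≤ j → m' ≤ j → x m = x m' → m = m') ∧ Set.InjOn ψ Λ ∧
        (∀ w ∈ Λ, ∀ m ≤ j, ψ w ≠ x m) ∧ (∀ m < j, κ (x m) = 1 ∧ f (x m) < f c) ∧
        (∀ w ∈ Λ, κ (ψ w) = 0 ∨ (κ (ψ w) = 1 ∧ f (ψ w) < f c)) := by
  rcases Nat.eq_zero_or_pos j with hj | hj
  · subst hj
    refine ⟨∅, ⟨fun _ => 0, by simp, by simp⟩, ?_⟩
    intro c hc _
    have : Nonempty V := ⟨c⟩
    obtain ⟨g, hg1, hg2⟩ := greedy_pick (fun _ => 0)
      (fun _ => univ.filter (fun u => O u c ∧ (κ u = 0 ∨ (κ u = 1 ∧ f u < f c)))) Λ (by
        intro w hw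
        refine lt_of_lt_of_le ?_ ((ht0 rfl).trans (hsafe c hc))
        apply card_lt_card
        rw [ssubset_iff_of_subset (filter_subset _ _)]
        exact ⟨w, hw, by simp⟩)
    refine ⟨fun _ => c, g, rfl, fun m hm => absurd hm (by omega), ?_, ?_, hg1, ?_, ?_, ?_⟩
    · intro w hw
      exact (mem_filter.1 (hg2 w hw)).2.1
    · intro m m' hm hm' _; omega
    · intro w hw m _ he
      have := (mem_filter.1 (hg2 w hw)).2.1
      rw [he] at this
      exact hO _ _ this this
    · intro m hm; omega
    · intro w hw
      exact (mem_filter.1 (hg2 w hw)).2.2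
  · obtain ⟨lam, L1, L1', L2, L3, L5⟩ := levels (R := R)
      (fun x y h h' => hO _ _ ((hR _ _).1 h).1 ((hR _ _).1 h').1) f hmax
    set b := (Λ.filter (fun w => a w = j)).card with hb
    set B1 := univ.filter (fun v => κ v = 1 ∧ lam v < j - 1) with hB1
    set B2 := univ.filter (fun v => κ v = 1 ∧ j - 1 ≤ lam v ∧
      (univ.filter (fun u => R u v ∧ j - 1 ≤ lam u ∧ lam u < lam v)).card
        ≤ b) with hB2
    have c1 : Col O B1 (j - 1) := by
      refine ⟨lam, ?_, ?_⟩
      · intro x hx
        exact (mem_filter.1 hx).2.2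
      · intro x hx y hy hxy
        exact L3 x y ((hR _ _).2 ⟨hxy, (mem_filter.1 hx).2.1, (mem_filter.1 hy).2.1⟩)
    have c2 : Col O B2 (2 * b + 1) := by
      refine col_of_back hO lam (2 * b) B2 ?_ ?_
      · intro x hx y hy hxy
        exact L3 x y ((hR _ _).2 ⟨hxy, (mem_filter.1 hx).2.1, (mem_filter.1 hy).2.1⟩)
      · intro v hv
        obtain ⟨hv1, hv2, hv3⟩ := (mem_filter.1 hv).2
        have h5 := L5 (j - 1) v hv2
        have h6 : B2.filter (fun w => (O v w ∨ O w v) ∧ lam w < lam v) ⊆
            (univ.filter (fun w => R v w ∧ j - 1 ≤ lam w ∧ lam w < lam v)) ∪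
            (univ.filter (fun w => R w v ∧ j - 1 ≤ lam w ∧ lam w < lam v)) := by
          intro w hw
          rw [mem_filter] at hw
          obtain ⟨hw1, hw2, hw3⟩ := hw
          obtain ⟨hw4, hw5, _⟩ := (mem_filter.1 hw1).2
          rw [mem_union, mem_filter, mem_filter]
          rcases hw2 with h | h
          · exact Or.inl ⟨mem_univ _, (hR _ _).2 ⟨h, hv1, hw4⟩, hw5, hw3⟩
          · exact Or.inr ⟨mem_univ _, (hR _ _).2 ⟨h, hw4, hv1⟩, hw5, hw3⟩
        have h7 := (card_le_card h6).trans (card_union_le _ _)
        omega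
    refine ⟨B1 ∪ B2, ?_, ?_⟩
    · refine (c1.union c2).mono (Subset.refl _) ?_
      rw [if_neg (by omega)]
      omega
    · intro c hc hcB
      have : Nonempty V := ⟨c⟩
      rw [mem_union, not_or] at hcB
      obtain ⟨hcB1, hcB2⟩ := hcB
      have hlc : j - 1 ≤ lam c := by
        by_contra h
        exact hcB1 (mem_filter.2 ⟨mem_univ _, hc, by omega⟩)
      set N := univ.filter (fun u => R u c ∧ j - 1 ≤ lam u ∧ lam u < lam c) with hN
      have hNb : b < N.card := by
        by_contra h
        refine hcB2 (mem_filter.2 ⟨mem_univ _, hc, hlc, le_trans (le_of_eq ?_) (not_lt.1 h)⟩)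
        rw [hN]
      obtain ⟨u0, hu0, hmin⟩ := N.exists_min_image lam (card_pos.1 (by omega))
      obtain ⟨hu1, hu2, hu3⟩ := (mem_filter.1 hu0).2
      obtain ⟨y, hy1, hy2, hy3⟩ := path_down
        (F := fun u w => R u w ∧ f u < f w) L2 (j - 1) u0 hu2
      obtain ⟨x, hx⟩ : ∃ x : ℕ → V, ∀ m, x m = if m < j then y m else c := ⟨_, fun _ => rfl⟩
      have hxj : x j = c := by rw [hx, if_neg (by omega)]
      have hxj1 : x (j - 1) = u0 := by rw [hx, if_pos (by omega), hy1]
      have hstep : ∀ m < j, R (x m) (x (m + 1)) ∧ f (x m) < f (x (m + 1)) := by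
        intro m hm
        by_cases hm1 : m = j - 1
        · subst hm1
          have e : j - 1 + 1 = j := by omega
          rw [e, hxj, hxj1]
          exact ⟨hu1, L1' _ _ hu1 hu3⟩
        · rw [hx m, hx (m + 1), if_pos (by omega), if_pos (by omega)]
          exact hy2 m (by omega)
      have hlamlt : ∀ m' ≤ j, ∀ m < m', lam (x m) < lam (x m') := by
        intro m' hm'
        induction m' with
        | zero => intro m hm; omega
        | succ n ih =>
          intro m hm
          have h5 := hstep n (by omega)
          have h6 := L1 _ _ h5.1 h5.2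
          rcases Nat.lt_succ_iff_lt_or_eq.1 hm with h | h
          · exact (ih (by omega) m h).trans h6
          · rw [h]; exact h6
      have hflt : ∀ m' ≤ j, ∀ m < m', f (x m) < f (x m') := by
        intro m' hm'
        induction m' with
        | zero => intro m hm; omega
        | succ n ih =>
          intro m hm
          have h5 := hstep n (by omega)
          rcases Nat.lt_succ_iff_lt_or_eq.1 hm with h | h
          · exact (ih (by omega) m h).trans h5.2
          · rw [h]; exact h5.2
      have hκ : ∀ m ≤ j, κ (x m) = 1 := by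
        intro m hm
        rcases Nat.lt_or_ge m j with h | h
        · exact ((hR _ _).1 (hstep m h).1).2.1
        · have : m = j := by omega
          rw [this, hxj]; exact hc
      -- leaves below
      have hC2 : ∀ m < j, t - m ≤ ((univ.filter (fun u => O u (x m) ∧
          (κ u = 0 ∨ (κ u = 1 ∧ f u < f (x m))))) \ (range m).image x).card := by
        intro m hm
        have h5 := hsafe (x m) (hκ m hm.le)
        have h6 := le_card_sdiff ((range m).image x) (univ.filter (fun u => O u (x m) ∧
          (κ u = 0 ∨ (κ u = 1 ∧ f u < f (x m)))))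
        have h7 : ((range m).image x).card ≤ m := card_image_le.trans (by simp)
        omega
      obtain ⟨g2, hg21, hg22⟩ := greedy_pick (fun w => j - a w)
        (fun w => (univ.filter (fun u => O u (x (a w)) ∧
          (κ u = 0 ∨ (κ u = 1 ∧ f u < f (x (a w)))))) \ (range (a w)).image x)
        (Λ.filter (fun w => a w < j)) (by
          intro w hw
          obtain ⟨hw1, hw2⟩ := mem_filter.1 hw
          refine lt_of_lt_of_le ?_ (hC2 (a w) hw2)
          have h5 := hfront w hw1 hw2
          have h6 : (Λ.filter (fun w' => a w' < a w)).card +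
              ((Λ.filter (fun w => a w < j)).filter
                (fun w' => w' ≠ w ∧ j - a w' ≤ j - a w)).card + 1 ≤
              (Λ.filter (fun w => a w < j)).card := by
            have h7 : (Λ.filter (fun w' => a w' < a w)) ∪
                ((Λ.filter (fun w => a w < j)).filter
                (fun w' => w' ≠ w ∧ j - a w' ≤ j - a w)) ∪ {w} ⊆
                Λ.filter (fun w => a w < j) := by
              intro w' hw'
              rw [mem_union, mem_union, mem_filter, mem_filter, mem_singleton] at hw'
              rcases hw' with (h | h) | h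
              · exact mem_filter.2 ⟨h.1, by omega⟩
              · exact h.1
              · rw [h]; exact hw
            have h8 := card_le_card h7
            rw [card_union_of_disjoint, card_union_of_disjoint, card_singleton] at h8
            · exact h8
            · rw [disjoint_left]
              intro w' h9 h10
              rw [mem_filter] at h9 h10
              have := (mem_filter.1 h10.1).2
              omega
            · rw [disjoint_right]
              intro w' h9 h10
              rw [mem_singleton] at h9
              subst h9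
              rw [mem_union, mem_filter, mem_filter] at h10
              rcases h10 with h | h
              · omega
              · exact h.2.1 rfl
          omega)
      obtain ⟨g1, hg11, hg12⟩ := greedy_pick (fun _ => 0) (fun _ => N.erase u0)
        (Λ.filter (fun w => a w = j)) (by
          intro w hw
          rw [card_erase_of_mem hu0]
          have h5 : ((Λ.filter (fun w => a w = j)).filter
              (fun w' => w' ≠ w ∧ 0 ≤ 0)).card < b := by
            rw [hb]
            apply card_lt_card
            rw [ssubset_iff_of_subset (filter_subset _ _)]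
            exact ⟨w, hw, by simp⟩
          omega)
      obtain ⟨ψ, hψ⟩ : ∃ ψ : ι → V, ∀ w, ψ w = if a w < j then g2 w else g1 w := ⟨_, fun _ => rfl⟩
      have hlow : ∀ w ∈ Λ, a w < j → (O (ψ w) (x (a w)) ∧
          (κ (ψ w) = 0 ∨ (κ (ψ w) = 1 ∧ f (ψ w) < f (x (a w))))) ∧
          ∀ m < a w, ψ w ≠ x m := by
        intro w hw hwj
        have h5 := hg22 w (mem_filter.2 ⟨hw, hwj⟩)
        rw [mem_sdiff, mem_filter] at h5
        rw [hψ, if_pos hwj]
        refine ⟨h5.1.2, fun m hm he => h5.2 (mem_image.2 ⟨m, mem_range.2 hm, he.symm⟩)⟩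
      have hhigh : ∀ w ∈ Λ, a w = j → R (ψ w) c ∧
          lam (ψ w) < lam c ∧ lam u0 ≤ lam (ψ w) ∧ ψ w ≠ u0 := by
        intro w hw hwj
        have h5 := hg12 w (mem_filter.2 ⟨hw, hwj⟩)
        rw [mem_erase] at h5
        obtain ⟨h6, h7, h8⟩ := (mem_filter.1 h5.2).2
        rw [hψ, if_neg (by omega)]
        exact ⟨h6, h8, hmin _ h5.2, h5.1⟩
      have hlowlam : ∀ w ∈ Λ, a w < j → κ (ψ w) = 1 → lam (ψ w) < lam (x (a w)) := by
        intro w hw hwj hk
        obtain ⟨⟨h5, h6⟩, _⟩ := hlow w hw hwj
        rcases h6 with h6 | h6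
        · rw [hk] at h6; exact absurd h6 (by decide)
        · exact L1 _ _ ((hR _ _).2 ⟨h5, hk, hκ _ hwj.le⟩) h6.2
      have hlowlam' : ∀ w ∈ Λ, a w < j → κ (ψ w) = 1 → lam (ψ w) < lam u0 := by
        intro w hw hwj hk
        refine lt_of_lt_of_le (hlowlam w hw hwj hk) ?_
        rw [← hxj1]
        rcases Nat.lt_or_ge (a w) (j - 1) with h | h
        · exact (hlamlt (j - 1) (by omega) _ h).le
        · have : a w = j - 1 := by omega
          rw [this]
      refine ⟨x, ψ, hxj, fun m hm => ((hR _ _).1 (hstep m hm).1).1, ?_, ?_, ?_, ?_, ?_, ?_⟩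
      · intro w hw
        rcases Nat.lt_or_ge (a w) j with h | h
        · exact (hlow w hw h).1.1
        · have h' : a w = j := le_antisymm (ha w hw) h
          rw [h', hxj]
          exact ((hR _ _).1 (hhigh w hw h').1).1
      · intro m m' hm hm' he
        by_contra hne
        rcases lt_or_gt_of_ne hne with h | h
        · have := hlamlt m' hm' m h
          rw [he] at this; omega
        · have := hlamlt m hm m' h
          rw [he] at this; omega
      · intro w hw w' hw' he
        rw [mem_coe] at hw hw'
        rcases Nat.lt_or_ge (a w) j with h | h <;> rcases Nat.lt_or_ge (a w') j with h' | h'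
        · rw [hψ, hψ, if_pos h, if_pos h'] at he
          exact hg21 (by simp [hw, h]) (by simp [hw', h']) he
        · exfalso
          have h1 := hhigh w' hw' (le_antisymm (ha w' hw') h')
          have h2 := hlowlam' w hw h (by rw [he]; exact ((hR _ _).1 h1.1).2.1)
          rw [he] at h2
          omega
        · exfalso
          have h1 := hhigh w hw (le_antisymm (ha w hw) h)
          have h2 := hlowlam' w' hw' h' (by rw [← he]; exact ((hR _ _).1 h1.1).2.1)
          rw [← he] at h2
          omega
        · rw [hψ, hψ, if_neg (by omega), if_neg (by omega)] at he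
          exact hg11 (by simp [hw, le_antisymm (ha w hw) h])
            (by simp [hw', le_antisymm (ha w' hw') h']) he
      · intro w hw m hm he
        rcases Nat.lt_or_ge (a w) j with h | h
        · have hk : κ (ψ w) = 1 := by rw [he]; exact hκ m hm
          rcases Nat.lt_or_ge m (a w) with h1 | h1
          · exact (hlow w hw h).2 m h1 he
          · have h2 := hlowlam w hw h hk
            rw [he] at h2
            rcases Nat.lt_or_ge (a w) m with h3 | h3
            · have := hlamlt m hm _ h3
              omega
            · have : a w = m := by omega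
              rw [this] at h2; omega
        · obtain ⟨h1, h2, h3, h4⟩ := hhigh w hw (le_antisymm (ha w hw) h)
          rw [he] at h2 h3 h4
          rcases Nat.lt_or_ge m j with h5 | h5
          · rcases Nat.lt_or_ge m (j - 1) with h6 | h6
            · have := hlamlt (j - 1) (by omega) m h6
              rw [hxj1] at this
              omega
            · have : m = j - 1 := by omega
              rw [this, hxj1] at h4
              exact h4 rfl
          · have : m = j := by omega
            rw [this, hxj] at h2; omega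
      · intro m hm
        refine ⟨hκ m hm.le, ?_⟩
        have := hflt j le_rfl m hm
        rwa [hxj] at this
      · intro w hw
        rcases Nat.lt_or_ge (a w) j with h | h
        · obtain ⟨⟨h5, h6⟩, _⟩ := hlow w hw h
          rcases h6 with h6 | h6
          · exact Or.inl h6
          · refine Or.inr ⟨h6.1, h6.2.trans ?_⟩
            have := hflt j le_rfl _ h
            rwa [hxj] at this
        · obtain ⟨h1, h2, h3, h4⟩ := hhigh w hw (le_antisymm (ha w hw) h)
          exact Or.inr ⟨((hR _ _).1 h1).2.1, L1' _ _ h1 h2⟩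

end Pool.Helper75.Havet
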