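import Pool.Agent.Helper75.Havet.Part

/-!
# Levels of a maximum acyclic subgraph
-/

set_option autoImplicit false

namespace Pool.Helper75.Havet

open Finset Pool.Helper56.Havet
open scoped Classical

variable {V : Type} [Fintype V]

theorem exists_tight {F : V → V → Prop} (f : V → ℤ) (hF : ∀ u w, F u w → f u < f w) :
    ∃ lam : V → ℕ, (∀ u w, F u w → lam u < lam w) ∧
      (∀ v, 0 < lam v → ∃ u, F u v ∧ lam u + 1 = lam v) := by
  have hex : ∃ n : ℕ, ∃ lam : V → ℕ, (∀ u w, F u w → lam u < lam w) ∧ ∑ v, lam v = n := by
    refine ⟨_, fun v => (univ.filter (fun u => f u < f v)).card, ?_, rfl⟩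
    intro u w huw
    apply card_lt_card
    rw [ssubset_iff_of_subset]
    · exact ⟨u, by simpa using hF u w huw, by simp⟩
    · intro x hx
      simp only [mem_filter, mem_univ, true_and] at hx ⊢
      exact hx.trans (hF u w huw)
  obtain ⟨lam, h1, h2⟩ := Nat.find_spec hex
  refine ⟨lam, h1, ?_⟩
  intro v hv
  by_contra hcon
  push Not at hcon
  have h3 : ∃ lam' : V → ℕ, (∀ u w, F u w → lam' u < lam' w) ∧
      ∑ w, lam' w = Nat.find hex - 1 := by
    refine ⟨Function.update lam v (lam v - 1), ?_, ?_⟩
    · intro u w huw
      have huw' := h1 u w huw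
      by_cases hu : u = v
      · subst hu
        have hw : w ≠ u := fun h => by subst h; omega
        rw [Function.update_self, Function.update_of_ne hw]
        omega
      · rw [Function.update_of_ne hu]
        by_cases hw : w = v
        · subst hw
          rw [Function.update_self]
          have := hcon u huw
          omega
        · rw [Function.update_of_ne hw]
          exact huw'
    · rw [← h2, ← Finset.add_sum_erase univ _ (mem_univ v),
        ← Finset.add_sum_erase univ lam (mem_univ v), Function.update_self]
      have h5 : ∑ w ∈ univ.erase v, Function.update lam v (lam v - 1) w =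
          ∑ w ∈ univ.erase v, lam w := by
        apply sum_congr rfl
        intro w hw
        rw [Function.update_of_ne (ne_of_mem_erase hw)]
      rw [h5]
      omega
  have h6 : 0 < Nat.find hex := by
    rw [← h2]
    exact lt_of_lt_of_le hv (single_le_sum (f := lam) (fun i _ => Nat.zero_le _) (mem_univ v))
  exact Nat.find_min hex (by omega) h3

theorem levels {R : V → V → Prop} (hR : ∀ x y, R x y → ¬ R y x) (f : V → ℤ)
    (hmax : ∀ f' : V → ℤ, (univ.filter (fun p : V × V => R p.1 p.2 ∧ f' p.1 < f' p.2)).card ≤
      (univ.filter (fun p : V × V => R p.1 p.2 ∧ f p.1 < f p.2)).card) :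
    ∃ lam : V → ℕ, (∀ u w, R u w → f u < f w → lam u < lam w) ∧
      (∀ u w, R u w → lam u < lam w → f u < f w) ∧
      (∀ v, 0 < lam v → ∃ u, (R u v ∧ f u < f v) ∧ lam u + 1 = lam v) ∧
      (∀ u w, R u w → lam u ≠ lam w) ∧
      (∀ (i : ℕ) (v : V), i ≤ lam v →
        (univ.filter (fun w => R v w ∧ i ≤ lam w ∧ lam w < lam v)).card ≤
          (univ.filter (fun w => R w v ∧ i ≤ lam w ∧ lam w < lam v)).card) := by
  obtain ⟨lam, h1, h2⟩ := exists_tight (F := fun u w => R u w ∧ f u < f w) f
    (fun u w h => h.2)
  set A := univ.filter (fun p : V × V => R p.1 p.2 ∧ f p.1 < f p.2) with hA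
  have hsub : A ⊆ univ.filter (fun p : V × V => R p.1 p.2 ∧ ((lam p.1 : ℤ)) < (lam p.2 : ℤ)) := by
    intro p hp
    simp only [hA, mem_filter, mem_univ, true_and] at hp ⊢
    exact ⟨hp.1, by exact_mod_cast h1 _ _ hp⟩
  have heq := eq_of_subset_of_card_le hsub (hmax (fun v => (lam v : ℤ)))
  have h1' : ∀ u w, R u w → lam u < lam w → f u < f w := by
    intro u w h3 h4
    have : (u, w) ∈ A := by
      rw [heq]
      simp only [mem_filter, mem_univ, true_and]
      exact ⟨h3, by exact_mod_cast h4⟩
    exact (mem_filter.1 this).2.2
  have hmA : ∀ u w, (u, w) ∈ A ↔ R u w ∧ lam u < lam w := by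
    intro u w
    simp only [hA, mem_filter, mem_univ, true_and]
    exact ⟨fun h => ⟨h.1, h1 u w h⟩, fun h => ⟨h.1, h1' u w h.1 h.2⟩⟩
  refine ⟨lam, fun u w h3 h4 => h1 u w ⟨h3, h4⟩, h1', h2, ?_, ?_⟩
  · intro u v huv he
    set F : V → V → Prop := fun u w => R u w ∧ f u < f w with hF
    have hcl : ∀ w, Relation.ReflTransGen F v w → w = v ∨ lam v < lam w := by
      intro w hw
      induction hw with
      | refl => exact Or.inl rfl
      | tail _ hbc ih =>
        right
        have := h1 _ _ hbc
        rcases ih with rfl | ih
        · exact this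
        · exact ih.trans this
    have hu : ¬ Relation.ReflTransGen F v u := by
      intro h
      rcases hcl u h with h3 | h3
      · subst h3; exact hR _ _ huv huv
      · omega
    have h3 := hmax (fun w => (lam w : ℤ) + if Relation.ReflTransGen F v w then 1 else 0)
    have h4 : insert (u, v) A ⊆ univ.filter (fun p : V × V => R p.1 p.2 ∧
        ((lam p.1 : ℤ) + if Relation.ReflTransGen F v p.1 then 1 else 0) <
        ((lam p.2 : ℤ) + if Relation.ReflTransGen F v p.2 then 1 else 0)) := by
      intro p hp
      rw [mem_insert] at hp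
      simp only [mem_filter, mem_univ, true_and]
      rcases hp with rfl | hp
      · refine ⟨huv, ?_⟩
        have hvv : Relation.ReflTransGen F v v := Relation.ReflTransGen.refl
        simp only [hu, hvv, if_true, if_false]
        omega
      · obtain ⟨a, b⟩ := p
        have hp' := (hmA a b).1 hp
        have hab : F a b := by
          have := (mem_filter.1 hp).2
          exact this
        refine ⟨hp'.1, ?_⟩
        by_cases ha : Relation.ReflTransGen F v a
        · have hb : Relation.ReflTransGen F v b := ha.tail hab
          simp only [ha, hb, if_true]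
          omega
        · by_cases hb : Relation.ReflTransGen F v b
          · simp only [ha, hb, if_true, if_false]; omega
          · simp only [ha, hb, if_false]; omega
    have h5 := (card_le_card h4).trans h3
    rw [card_insert_of_notMem] at h5
    · omega
    · rw [hmA]
      rintro ⟨_, h⟩
      omega
  · intro i v hi
    set X := univ.filter (fun w => R w v ∧ i ≤ lam w ∧ lam w < lam v) with hX
    set Y := univ.filter (fun w => R v w ∧ i ≤ lam w ∧ lam w < lam v) with hY
    have h3 := hmax (fun w => if w = v then 2 * (i : ℤ) - 1 else 2 * (lam w : ℤ))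
    have h4 : (A \ X.image (fun w => (w, v))) ∪ Y.image (fun w => (v, w)) ⊆
        univ.filter (fun p : V × V => R p.1 p.2 ∧
        (if p.1 = v then 2 * (i : ℤ) - 1 else 2 * (lam p.1 : ℤ)) <
        (if p.2 = v then 2 * (i : ℤ) - 1 else 2 * (lam p.2 : ℤ))) := by
      rintro ⟨a, b⟩ hp
      simp only [mem_filter, mem_univ, true_and]
      rcases mem_union.1 hp with hp | hp
      · rw [mem_sdiff, hmA] at hp
        obtain ⟨⟨hab, hlt⟩, hn⟩ := hp
        refine ⟨hab, ?_⟩
        by_cases ha : a = v
        · subst ha
          have hb : b ≠ a := fun h => by subst h; omega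
          simp only [hb, if_true, if_false]
          omega
        · by_cases hb : b = v
          · subst hb
            simp only [ha, if_true, if_false]
            have : lam a < i := by
              by_contra h
              exact hn (mem_image.2 ⟨a, by simp only [hX, mem_filter, mem_univ, true_and]; exact ⟨hab, by omega, hlt⟩, rfl⟩)
            omega
          · simp only [ha, hb, if_false]
            omega
      · obtain ⟨w, hw, he⟩ := mem_image.1 hp
        simp only [Prod.mk.injEq] at he
        obtain ⟨rfl, rfl⟩ := he
        simp only [hY, mem_filter, mem_univ, true_and] at hw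
        have hwv : w ≠ v := fun h => by subst h; exact hR _ _ hw.1 hw.1
        refine ⟨hw.1, ?_⟩
        simp only [hwv, if_true, if_false]
        omega
    have h5 := (card_le_card h4).trans h3
    rw [card_union_of_disjoint, card_image_of_injective _ (fun a b h => by simpa using h)] at h5
    · have h6 := le_card_sdiff (X.image (fun w => (w, v))) A
      have h7 : (X.image (fun w => (w, v))).card ≤ X.card := card_image_le
      omega
    · rw [disjoint_left]
      rintro ⟨a, b⟩ hp hp'
      rw [mem_sdiff, hmA] at hp
      obtain ⟨w, hw, he⟩ := mem_image.1 hp'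
      simp only [Prod.mk.injEq] at he
      obtain ⟨rfl, rfl⟩ := he
      simp only [hY, mem_filter, mem_univ, true_and] at hw
      omega

/-- colouring by degeneracy along `lam` -/
theorem col_of_back {O : V → V → Prop} (hO : ∀ x y, O x y → ¬ O y x) (lam : V → ℕ) (d : ℕ) :
    ∀ S : Finset V, (∀ u ∈ S, ∀ w ∈ S, O u w → lam u ≠ lam w) →
      (∀ v ∈ S, (S.filter (fun w => (O v w ∨ O w v) ∧ lam w < lam v)).card ≤ d) →
      Col O S (d + 1) := by
  intro S
  induction S using Finset.strongInduction with
  | H S ih =>
    intro h1 h2
    rcases S.eq_empty_or_nonempty with rfl | hne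
    · exact ⟨fun _ => 0, by simp, by simp⟩
    · obtain ⟨v, hv, hmaxv⟩ := S.exists_max_image lam hne
      have h3 : Col O (S.erase v) (d + 1) := by
        apply ih _ (erase_ssubset hv)
        · exact fun u hu w hw => h1 u (mem_of_mem_erase hu) w (mem_of_mem_erase hw)
        · intro x hx
          refine le_trans (card_le_card ?_) (h2 x (mem_of_mem_erase hx))
          exact filter_subset_filter _ (erase_subset _ _)
      have h4 := h3.insert hO (notMem_erase v S) (by
        refine lt_of_le_of_lt (card_le_card ?_) (Nat.lt_succ_of_le (h2 v hv))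
        intro w hw
        rw [mem_filter] at hw ⊢
        have hwS := mem_of_mem_erase hw.1
        refine ⟨hwS, hw.2, ?_⟩
        refine lt_of_le_of_ne (hmaxv w hwS) ?_
        rcases hw.2 with h | h
        · exact (h1 v hv w hwS h).symm
        · exact h1 w hwS v hv h)
      rwa [insert_erase hv] at h4

theorem path_down {F : V → V → Prop} {lam : V → ℕ}
    (h2 : ∀ v, 0 < lam v → ∃ u, F u v ∧ lam u + 1 = lam v) :
    ∀ (n : ℕ) (v : V), n ≤ lam v → ∃ y : ℕ → V, y n = v ∧ (∀ m < n, F (y m) (y (m + 1))) ∧
      ∀ m ≤ n, lam (y m) + (n - m) = lam v := by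
  intro n
  induction n with
  | zero =>
    intro v _
    exact ⟨fun _ => v, rfl, fun m hm => absurd hm (by omega), fun m hm => by simp⟩
  | succ n ih =>
    intro v hv
    obtain ⟨u, hu, hlu⟩ := h2 v (by omega)
    obtain ⟨y, hy1, hy2, hy3⟩ := ih u (by omega)
    refine ⟨fun m => if m = n + 1 then v else y m, by simp, ?_, ?_⟩
    · intro m hm
      have hm1 : m ≠ n + 1 := by omega
      simp only [hm1, if_false]
      by_cases hm2 : m = n
      · subst hm2
        simp only [if_true]
        rw [hy1]; exact hu
      · have hm3 : m + 1 ≠ n + 1 := by omega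
        simp only [hm3, if_false]
        exact hy2 m (by omega)
    · intro m hm
      by_cases hm1 : m = n + 1
      · subst hm1
        simp
      · simp only [hm1, if_false]
        have := hy3 m (by omega)
        omega

/-- greedy choice of distinct representatives -/
theorem greedy_pick {ι : Type*} {W : Type*} [Nonempty W] (r : ι → ℕ) (C : ι → Finset W)
    (Λ : Finset ι) :
    (∀ w ∈ Λ, (Λ.filter (fun w' => w' ≠ w ∧ r w' ≤ r w)).card < (C w).card) →
    ∃ g : ι → W, Set.InjOn g Λ ∧ ∀ w ∈ Λ, g w ∈ C w := by
  induction Λ using Finset.induction_on_max_value r with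
  | empty => exact fun _ => ⟨fun _ => Classical.arbitrary W, by simp, by simp⟩
  | insert a s ha hmaxa ih =>
    intro h
    obtain ⟨g, hg1, hg2⟩ := ih (by
      intro w hw
      refine lt_of_le_of_lt (card_le_card ?_) (h w (mem_insert_of_mem hw))
      exact filter_subset_filter _ (subset_insert _ _))
    have h3 := h a (mem_insert_self _ _)
    have h4 : (insert a s).filter (fun w' => w' ≠ a ∧ r w' ≤ r a) = s := by
      ext w
      simp only [mem_filter, mem_insert]
      constructor
      · rintro ⟨h5 | h5, h6, _⟩
        · exact absurd h5 h6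
        · exact h5
      · intro h5
        exact ⟨Or.inr h5, fun h6 => ha (h6 ▸ h5), hmaxa w h5⟩
    rw [h4] at h3
    obtain ⟨z, hz, hz'⟩ : ∃ z ∈ C a, z ∉ s.image g := by
      by_contra hcon
      push Not at hcon
      have h5 := card_le_card (show C a ⊆ s.image g from fun z hz => hcon z hz)
      have h6 : (s.image g).card ≤ s.card := card_image_le
      omega
    have hne : ∀ w ∈ s, w ≠ a := fun w hw h6 => ha (h6 ▸ hw)
    refine ⟨Function.update g a z, ?_, ?_⟩
    · intro w hw w' hw' he
      simp only [coe_insert, Set.mem_insert_iff, mem_coe] at hw hw'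
      rcases hw with rfl | hw <;> rcases hw' with rfl | hw'
      · rfl
      · rw [Function.update_self, Function.update_of_ne (hne w' hw')] at he
        exact absurd (mem_image.2 ⟨w', hw', he.symm⟩) hz'
      · rw [Function.update_self, Function.update_of_ne (hne w hw)] at he
        exact absurd (mem_image.2 ⟨w, hw, he⟩) hz'
      · rw [Function.update_of_ne (hne w hw), Function.update_of_ne (hne w' hw')] at he
        exact hg1 hw hw' he
    · intro w hw
      rcases mem_insert.1 hw with rfl | hw
      · rw [Function.update_self]; exact hz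
      · rw [Function.update_of_ne (hne w hw)]; exact hg2 w hw

end Pool.Helper75.Havet
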