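import Mathlib

/-!
# Structure of caterpillars with a directed spine
-/

set_option autoImplicit false

namespace Pool.Helper75.Havet

open Finset
open scoped Classical

/-- All arcs of a tree whose vertices off a directed path `s` hang at that path. -/
theorem arcs_of_spine {k p : ℕ} {T : Fin (k + 1) → Fin (k + 1) → Prop}
    (hT : ∀ a b, T a b → ¬ T b a) (htree : (SimpleGraph.fromRel T).IsTree)
    (s : Fin (p + 1) → Fin (k + 1)) (hs : Function.Injective s)
    (hpath : ∀ i : Fin p, T (s i.castSucc) (s i.succ))
    (m : Fin (k + 1) → Fin (p + 1))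
    (hm : ∀ w, w ∉ Set.range s → T w (s (m w)) ∨ T (s (m w)) w) :
    ∀ u v, T u v → (∃ i : Fin p, u = s i.castSucc ∧ v = s i.succ) ∨
      (u ∉ Set.range s ∧ v = s (m u)) ∨ (v ∉ Set.range s ∧ u = s (m v)) := by
  set G := SimpleGraph.fromRel T with hG
  have hadj : ∀ u v, G.Adj u v ↔ (T u v ∨ T v u) := by
    intro u v
    rw [hG, SimpleGraph.fromRel_adj]
    constructor
    · exact fun h => h.2
    · intro h
      refine ⟨?_, h⟩
      rintro rfl
      rcases h with h | h <;> exact hT _ _ h h
  -- the parent edges
  let E1 : Finset (Sym2 (Fin (k + 1))) := univ.image (fun i : Fin p => s(s i.castSucc, s i.succ))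
  let E2 : Finset (Sym2 (Fin (k + 1))) :=
    (univ.filter (fun w => w ∉ Set.range s)).image (fun w => s(w, s (m w)))
  have hE1 : E1.card = p := by
    have : Function.Injective (fun i : Fin p => s(s i.castSucc, s i.succ)) := by
      intro i i' h
      simp only [Sym2.eq_iff] at h
      rcases h with h | h
      · exact Fin.castSucc_injective _ (hs h.1)
      · have h1 := hs h.1
        have h2 := hs h.2
        have h3 : (i : ℕ) = i' + 1 := by
          have := congrArg Fin.val h1
          simpa using this
        have h4 : (i : ℕ) + 1 = i' := by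
          have := congrArg Fin.val h2
          simpa using this
        omega
    rw [card_image_of_injective _ this, card_univ, Fintype.card_fin]
  have hE2 : E2.card = k - p := by
    have h1 : Set.InjOn (fun w => s(w, s (m w)))
        ((univ.filter (fun w => w ∉ Set.range s) : Finset (Fin (k + 1))) :
          Set (Fin (k + 1))) := by
      intro w hw w' hw' h
      simp only [coe_filter, mem_univ, true_and, Set.mem_setOf_eq] at hw hw'
      simp only [Sym2.eq_iff] at h
      rcases h with h | h
      · exact h.1
      · exact absurd ⟨_, h.1.symm⟩ hw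
    rw [card_image_of_injOn h1]
    have h2 : (univ.filter (fun w => w ∉ Set.range s) : Finset (Fin (k + 1))) =
        univ \ univ.image s := by
      ext w
      simp
    rw [h2, card_sdiff_of_subset (subset_univ _), card_univ, Fintype.card_fin,
      card_image_of_injective _ hs, card_univ, Fintype.card_fin]
    omega
  have hpk : p ≤ k := by
    have := Fintype.card_le_of_injective s hs
    simp only [Fintype.card_fin] at this
    omega
  have hdisj : Disjoint E1 E2 := by
    rw [disjoint_left]
    intro e h1 h2
    obtain ⟨i, _, rfl⟩ := mem_image.1 h1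
    obtain ⟨w, hw, he⟩ := mem_image.1 h2
    have hw' := (mem_filter.1 hw).2
    simp only [Sym2.eq_iff] at he
    rcases he with h | h
    · exact hw' ⟨_, h.1.symm⟩
    · exact hw' ⟨_, h.1.symm⟩
  have hsub : E1 ∪ E2 ⊆ G.edgeFinset := by
    intro e he
    rw [SimpleGraph.mem_edgeFinset]
    rcases mem_union.1 he with h | h
    · obtain ⟨i, _, rfl⟩ := mem_image.1 h
      rw [SimpleGraph.mem_edgeSet, hadj]
      exact Or.inl (hpath i)
    · obtain ⟨w, hw, rfl⟩ := mem_image.1 h
      rw [SimpleGraph.mem_edgeSet, hadj]
      exact hm w (mem_filter.1 hw).2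
  have hcardE : G.edgeFinset.card = k := by
    have := htree.card_edgeFinset
    rw [Fintype.card_fin] at this
    omega
  have heq : E1 ∪ E2 = G.edgeFinset := by
    apply eq_of_subset_of_card_le hsub
    rw [hcardE, card_union_of_disjoint hdisj, hE1, hE2]
    omega
  intro u v huv
  have he : s(u, v) ∈ G.edgeFinset := by
    rw [SimpleGraph.mem_edgeFinset, SimpleGraph.mem_edgeSet, hadj]
    exact Or.inl huv
  rw [← heq, mem_union] at he
  rcases he with he | he
  · obtain ⟨i, _, he⟩ := mem_image.1 he
    simp only [Sym2.eq_iff] at he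
    rcases he with h | h
    · exact Or.inl ⟨i, h.1.symm, h.2.symm⟩
    · exfalso
      have := hpath i
      rw [h.1, h.2] at this
      exact hT _ _ huv this
  · obtain ⟨w, hw, he⟩ := mem_image.1 he
    have hw' := (mem_filter.1 hw).2
    simp only [Sym2.eq_iff] at he
    rcases he with h | h
    · refine Or.inr (Or.inl ⟨h.1 ▸ hw', ?_⟩)
      rw [← h.1, h.2]
    · refine Or.inr (Or.inr ⟨h.1 ▸ hw', ?_⟩)
      rw [← h.1, h.2]

end Pool.Helper75.Havet
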