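import Pool.Agent.Helper75.Havet.Sides
import Pool.Agent.Helper75.Havet.Tree

/-!
# Caterpillars with a directed spine: embedding
-/

set_option autoImplicit false

namespace Pool.Helper75.Havet

open Finset Pool.Helper56.Havet
open scoped Classical

/-- Passing to an oriented graph. -/
theorem orient {V : Type} [Fintype V] (D : V → V → Prop) (n : ℕ)
    (h : ((n + 1 : ℕ) : ℕ∞) ≤ (SimpleGraph.fromRel D).chromaticNumber) :
    ∃ O : V → V → Prop, (∀ x y, O x y → D x y) ∧ (∀ x y, O x y → ¬ O y x) ∧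
      ¬ Col O univ n := by
  let e := Fintype.equivFin V
  obtain ⟨O, hOd⟩ : ∃ O : V → V → Prop,
      ∀ x y, O x y ↔ (x ≠ y ∧ D x y ∧ (¬ D y x ∨ e x < e y)) := ⟨_, fun _ _ => Iff.rfl⟩
  refine ⟨O, fun x y hxy => ((hOd _ _).1 hxy).2.1, ?_, ?_⟩
  · intro x y hxy hyx
    obtain ⟨h1, h2, h3⟩ := (hOd x y).1 hxy
    obtain ⟨h4, h5, h6⟩ := (hOd y x).1 hyx
    rcases h3 with h3 | h3
    · exact h3 h5
    · rcases h6 with h6 | h6
      · exact h6 h2
      · exact absurd h3 (not_lt.2 h6.le)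
  · rintro ⟨c, hc1, hc2⟩
    have hC : (SimpleGraph.fromRel D).Colorable n := by
      refine ⟨SimpleGraph.Coloring.mk (fun x => (⟨c x, hc1 x (mem_univ x)⟩ : Fin n)) ?_⟩
      intro x y hxy heq
      rw [SimpleGraph.fromRel_adj] at hxy
      have heq' : c x = c y := by simpa using heq
      have hor : O x y ∨ O y x := by
        rw [hOd, hOd]
        obtain ⟨hne, h1 | h1⟩ := hxy
        · by_cases h2 : D y x
          · rcases lt_or_gt_of_ne (fun h => hne (e.injective h)) with h3 | h3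
            · exact Or.inl ⟨hne, h1, Or.inr h3⟩
            · exact Or.inr ⟨hne.symm, h2, Or.inr h3⟩
          · exact Or.inl ⟨hne, h1, Or.inl h2⟩
        · by_cases h2 : D x y
          · rcases lt_or_gt_of_ne (fun h => hne (e.injective h)) with h3 | h3
            · exact Or.inl ⟨hne, h2, Or.inr h3⟩
            · exact Or.inr ⟨hne.symm, h1, Or.inr h3⟩
          · exact Or.inr ⟨hne.symm, h1, Or.inl h2⟩
      rcases hor with h1 | h1
      · exact hc2 x (mem_univ _) y (mem_univ _) h1 heq'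
      · exact hc2 y (mem_univ _) x (mem_univ _) h1 heq'.symm
    have h1 := h.trans hC.chromaticNumber_le
    have h2 : n + 1 ≤ n := by exact_mod_cast h1
    omega

/-- Embedding when the centre is found. -/
theorem embed {V : Type} [Fintype V] {O : V → V → Prop} (hO : ∀ x y, O x y → ¬ O y x)
    {k p j : ℕ} {T : Fin (k + 1) → Fin (k + 1) → Prop} (hT : ∀ a b, T a b → ¬ T b a)
    (s : Fin (p + 1) → Fin (k + 1)) (hs : Function.Injective s) (hj : j ≤ p)
    (m : Fin (k + 1) → Fin (p + 1))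
    (harc : ∀ u v, T u v → (∃ i : Fin p, u = s i.castSucc ∧ v = s i.succ) ∨
      (u ∉ Set.range s ∧ v = s (m u)) ∨ (v ∉ Set.range s ∧ u = s (m v)))
    (hmj : ∀ w, w ∉ Set.range s →
      (((m w : ℕ) ≤ j ∧ T w (s (m w))) ∨ (j ≤ (m w : ℕ) ∧ T (s (m w)) w)))
    (hfront : ∀ w, w ∉ Set.range s → T w (s (m w)) → (m w : ℕ) < j →
      (m w : ℕ) ≤ (univ.filter (fun w' => w' ∉ Set.range s ∧ T w' (s (m w')) ∧
        (m w' : ℕ) < m w)).card)
    (hback : ∀ w, w ∉ Set.range s → T (s (m w)) w → j < (m w : ℕ) →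
      p - (m w : ℕ) ≤ (univ.filter (fun w' => w' ∉ Set.range s ∧ T (s (m w')) w' ∧
        (m w : ℕ) < m w')).card)
    (hcol : ¬ Col O univ
      (cost (univ.filter (fun w => w ∉ Set.range s ∧ T w (s (m w)))) (fun w => (m w : ℕ)) j +
        cost (univ.filter (fun w => w ∉ Set.range s ∧ T (s (m w)) w))
          (fun w => p - (m w : ℕ)) (p - j))) :
    ∃ g : Fin (k + 1) → V, Function.Injective g ∧ ∀ a b, T a b → O (g a) (g b) := by
  set Λ := univ.filter (fun w => w ∉ Set.range s ∧ T w (s (m w))) with hΛ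
  set Λ' := univ.filter (fun w => w ∉ Set.range s ∧ T (s (m w)) w) with hΛ'
  have hmΛ : ∀ w, w ∈ Λ ↔ (w ∉ Set.range s ∧ T w (s (m w))) := fun w => by simp [hΛ]
  have hmΛ' : ∀ w, w ∈ Λ' ↔ (w ∉ Set.range s ∧ T (s (m w)) w) := fun w => by simp [hΛ']
  have ha : ∀ w ∈ Λ, (m w : ℕ) ≤ j := by
    intro w hw
    obtain ⟨h1, h2⟩ := (hmΛ w).1 hw
    rcases hmj w h1 with h | h
    · exact h.1
    · exact absurd h2 (hT _ _ h.2)
  have ha' : ∀ w ∈ Λ', j ≤ (m w : ℕ) := by
    intro w hw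
    obtain ⟨h1, h2⟩ := (hmΛ' w).1 hw
    rcases hmj w h1 with h | h
    · exact absurd h2 (hT _ _ h.2)
    · exact h.1
  obtain ⟨c, P, x, ψ, y, χ, hPc, ⟨X1, X2, X3, X4, X5, X6, X7, X8⟩,
      ⟨Y1, Y2, Y3, Y4, Y5, Y6, Y7, Y8⟩⟩ :=
    exists_sides hO Λ Λ' (fun w => (m w : ℕ)) (fun w => p - (m w : ℕ)) j (p - j) ha
      (fun w hw => by have := ha' w hw; omega)
      (by
        intro w hw hwj
        obtain ⟨h1, h2⟩ := (hmΛ w).1 hw
        refine (hfront w h1 h2 hwj).trans (card_le_card ?_)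
        intro w' hw'
        simp only [mem_filter, mem_univ, true_and] at hw'
        rw [mem_filter, hmΛ]
        exact ⟨⟨hw'.1, hw'.2.1⟩, hw'.2.2⟩)
      (by
        intro w hw hwj
        obtain ⟨h1, h2⟩ := (hmΛ' w).1 hw
        refine (hback w h1 h2 (by omega)).trans (card_le_card ?_)
        intro w' hw'
        simp only [mem_filter, mem_univ, true_and] at hw'
        rw [mem_filter, hmΛ']
        have := (m w').2
        exact ⟨⟨hw'.1, hw'.2.1⟩, by omega⟩)
      hcol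
  -- spine map
  obtain ⟨σ, hσ⟩ : ∃ σ : Fin (p + 1) → V,
      ∀ i, σ i = if (i : ℕ) ≤ j then x i else y (p - i) := ⟨_, fun _ => rfl⟩
  have hσj : ∀ i : Fin (p + 1), j ≤ (i : ℕ) → σ i = y (p - i) := by
    intro i hi
    rw [hσ]
    split_ifs with h
    · have : (i : ℕ) = j := by omega
      rw [this, X1, Y1]
    · rfl
  have hσi : Function.Injective σ := by
    intro i i' he
    rw [hσ, hσ] at he
    have hi := i.2
    have hi' := i'.2
    split_ifs at he with h h'
    · exact Fin.ext (X4 _ _ h h' he)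
    · exfalso
      rcases Nat.lt_or_ge (i : ℕ) j with h2 | h2
      · have h3 := X7 _ h2
        rw [he] at h3
        exact Y7 _ (by omega) h3
      · have h3 : (i : ℕ) = j := by omega
        rw [h3, X1, ← Y1] at he
        have := Y4 _ _ (by omega) (by omega) he
        omega
    · exfalso
      rcases Nat.lt_or_ge (i' : ℕ) j with h2 | h2
      · have h3 := X7 _ h2
        rw [← he] at h3
        exact Y7 _ (by omega) h3
      · have h3 : (i' : ℕ) = j := by omega
        rw [h3, X1, ← Y1] at he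
        have := Y4 _ _ (by omega) (by omega) he
        omega
    · have := Y4 _ _ (by omega) (by omega) he
      exact Fin.ext (by omega)
  obtain ⟨g, hg⟩ : ∃ g : Fin (k + 1) → V, ∀ v, g v =
      if h : ∃ i, s i = v then σ h.choose else if v ∈ Λ then ψ v else χ v :=
    ⟨_, fun _ => rfl⟩
  have hgs : ∀ i, g (s i) = σ i := by
    intro i
    have h : ∃ i', s i' = s i := ⟨i, rfl⟩
    rw [hg, dif_pos h]
    congr 1
    exact hs h.choose_spec
  have hgΛ : ∀ w ∈ Λ, g w = ψ w := by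
    intro w hw
    have h0 : ¬ ∃ i, s i = w := ((hmΛ w).1 hw).1
    rw [hg, dif_neg h0, if_pos hw]
  have hgΛ' : ∀ w ∈ Λ', g w = χ w := by
    intro w hw
    obtain ⟨h1, h2⟩ := (hmΛ' w).1 hw
    have h3 : w ∉ Λ := fun h => hT _ _ h2 ((hmΛ w).1 h).2
    have h0 : ¬ ∃ i, s i = w := h1
    rw [hg, dif_neg h0, if_neg h3]
  have hcases : ∀ v, (∃ i, v = s i) ∨ v ∈ Λ ∨ v ∈ Λ' := by
    intro v
    by_cases hv : v ∈ Set.range s
    · obtain ⟨i, hi⟩ := hv
      exact Or.inl ⟨i, hi.symm⟩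
    · rcases hmj v hv with h | h
      · exact Or.inr (Or.inl ((hmΛ v).2 ⟨hv, h.2⟩))
      · exact Or.inr (Or.inr ((hmΛ' v).2 ⟨hv, h.2⟩))
  have hψσ : ∀ w ∈ Λ, ∀ i, ψ w ≠ σ i := by
    intro w hw i he
    rcases Nat.lt_or_ge j (i : ℕ) with h | h
    · rw [hσj i h.le] at he
      have := X8 w hw
      rw [he] at this
      exact Y7 _ (by have := i.2; omega) this
    · rw [hσ, if_pos h] at he
      exact X6 w hw _ h he
  have hχσ : ∀ w ∈ Λ', ∀ i, χ w ≠ σ i := by
    intro w hw i he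
    rcases Nat.lt_or_ge (i : ℕ) j with h | h
    · rw [hσ, if_pos h.le] at he
      have := X7 i h
      rw [← he] at this
      exact Y8 w hw this
    · rw [hσj i h] at he
      exact Y6 w hw _ (by omega) he
  have hψχ : ∀ w ∈ Λ, ∀ w' ∈ Λ', ψ w ≠ χ w' := by
    intro w hw w' hw' he
    have := X8 w hw
    rw [he] at this
    exact Y8 w' hw' this
  refine ⟨g, ?_, ?_⟩
  · intro u v he
    rcases hcases u with ⟨i, rfl⟩ | hu | hu <;> rcases hcases v with ⟨i', rfl⟩ | hv | hv
    · rw [hgs, hgs] at he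
      rw [hσi he]
    · rw [hgs, hgΛ v hv] at he
      exact absurd he.symm (hψσ v hv i)
    · rw [hgs, hgΛ' v hv] at he
      exact absurd he.symm (hχσ v hv i)
    · rw [hgs, hgΛ u hu] at he
      exact absurd he (hψσ u hu i')
    · rw [hgΛ u hu, hgΛ v hv] at he
      exact X5 hu hv he
    · rw [hgΛ u hu, hgΛ' v hv] at he
      exact absurd he (hψχ u hu v hv)
    · rw [hgs, hgΛ' u hu] at he
      exact absurd he (hχσ u hu i')
    · rw [hgΛ' u hu, hgΛ v hv] at he
      exact absurd he.symm (hψχ v hv u hu)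
    · rw [hgΛ' u hu, hgΛ' v hv] at he
      exact Y5 hu hv he
  · intro u v huv
    rcases harc u v huv with ⟨i, rfl, rfl⟩ | ⟨hu, hv⟩ | ⟨hv, hu⟩
    · rw [hgs, hgs]
      have hi := i.2
      rcases Nat.lt_or_ge (i : ℕ) j with h | h
      · rw [hσ, hσ, if_pos (by simpa using h.le), if_pos (by simpa using h)]
        simp only [Fin.val_castSucc, Fin.val_succ]
        exact X2 _ h
      · rw [hσj _ (by simpa using h), hσj _ (by simp only [Fin.val_succ]; omega)]
        simp only [Fin.val_castSucc, Fin.val_succ]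
        have := Y2 (p - (i + 1)) (by omega)
        have e : p - ((i : ℕ) + 1) + 1 = p - i := by omega
        rwa [e] at this
    · have hmu : u ∈ Λ := (hmΛ u).2 ⟨hu, hv ▸ huv⟩
      rw [hgΛ u hmu, hv, hgs, hσ, if_pos (ha u hmu)]
      exact X3 u hmu
    · have hmv : v ∈ Λ' := (hmΛ' v).2 ⟨hv, hu ▸ huv⟩
      rw [hgΛ' v hmv, hu, hgs, hσj _ (ha' v hmv)]
      exact Y3 v hmv

end Pool.Helper75.Havet
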