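import Pool.Agent.Helper56.Havet.Core

/-!
# Median order partition

For an oriented graph `O` and `s t : ℕ` we find a partition of the vertices into classes
`0` (in-poor), `1` (ordered part, order given by `f`) and `2` (out-poor).
-/

set_option autoImplicit false

namespace Pool.Helper75.Havet

open Finset Pool.Helper56.Havet
open scoped Classical

variable {V : Type} [Fintype V]

/-- counted arcs -/
def Cnt (κ : V → Fin 3) (f : V → ℤ) (u v : V) : Prop :=
  κ u < κ v ∨ (κ u = 1 ∧ κ v = 1 ∧ f u < f v)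

/-- bonus of a class -/
def bon (s t : ℕ) (i : Fin 3) : ℤ := if i = 0 then 2 * (t : ℤ) - 1 else if i = 2 then 2 * (s : ℤ) - 1 else 0

/-- the score -/
noncomputable def score (O : V → V → Prop) (s t : ℕ) (κ : V → Fin 3) (f : V → ℤ) : ℤ :=
  2 * ((univ.filter (fun p : V × V => O p.1 p.2 ∧ Cnt κ f p.1 p.2)).card : ℤ) + ∑ v, bon s t (κ v)

theorem exists_max (O : V → V → Prop) (s t : ℕ) :
    ∃ (κ : V → Fin 3) (f : V → ℤ), ∀ κ' f', score O s t κ' f' ≤ score O s t κ f := by
  have hb : ∃ b : ℤ, ∀ z : ℤ, (∃ κ f, score O s t κ f = z) → z ≤ b := by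
    refine ⟨2 * (Fintype.card (V × V) : ℤ) + ∑ v : V, (2 * (s : ℤ) + 2 * (t : ℤ)), ?_⟩
    rintro z ⟨κ, f, rfl⟩
    unfold score
    have h1 : ((univ.filter (fun p : V × V => O p.1 p.2 ∧ Cnt κ f p.1 p.2)).card : ℤ) ≤
        (Fintype.card (V × V) : ℤ) := by
      exact_mod_cast card_le_univ _
    have h2 : ∑ v, bon s t (κ v) ≤ ∑ v : V, (2 * (s : ℤ) + 2 * (t : ℤ)) := by
      apply sum_le_sum
      intro v _
      unfold bon
      split_ifs <;> omega
    linarith
  obtain ⟨m, ⟨κ, f, hm⟩, hmax⟩ := Int.exists_greatest_of_bdd hb ⟨_, fun _ => 1, fun _ => 0, rfl⟩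
  exact ⟨κ, f, fun κ' f' => by rw [hm]; exact hmax _ ⟨κ', f', rfl⟩⟩

/-- in-neighbours of `v` counted when `v` has class `i` and height `q` -/
noncomputable def nI (O : V → V → Prop) (κ : V → Fin 3) (f : V → ℤ) (v : V) (i : Fin 3) (q : ℤ) :
    Finset V :=
  univ.filter (fun u => O u v ∧ (κ u < i ∨ (κ u = 1 ∧ i = 1 ∧ f u < q)))

noncomputable def nO (O : V → V → Prop) (κ : V → Fin 3) (f : V → ℤ) (v : V) (i : Fin 3) (q : ℤ) :
    Finset V :=
  univ.filter (fun w => O v w ∧ (i < κ w ∨ (i = 1 ∧ κ w = 1 ∧ q < f w)))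

theorem count_split {O : V → V → Prop} (hO : ∀ x y, O x y → ¬ O y x) (κ : V → Fin 3) (f : V → ℤ)
    (v : V) :
    (univ.filter (fun p : V × V => O p.1 p.2 ∧ Cnt κ f p.1 p.2)).card =
      (univ.filter (fun p : V × V => O p.1 p.2 ∧ Cnt κ f p.1 p.2 ∧ p.1 ≠ v ∧ p.2 ≠ v)).card +
        (nI O κ f v (κ v) (f v)).card + (nO O κ f v (κ v) (f v)).card := by
  have h1 : univ.filter (fun p : V × V => O p.1 p.2 ∧ Cnt κ f p.1 p.2) =
      univ.filter (fun p : V × V => O p.1 p.2 ∧ Cnt κ f p.1 p.2 ∧ p.1 ≠ v ∧ p.2 ≠ v) ∪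
        ((nI O κ f v (κ v) (f v)).image (fun u => (u, v))) ∪
        ((nO O κ f v (κ v) (f v)).image (fun w => (v, w))) := by
    ext ⟨a, b⟩
    simp only [mem_filter, mem_univ, true_and, mem_union, mem_image, Prod.mk.injEq, nI, nO, Cnt]
    constructor
    · rintro ⟨h1, h2⟩
      by_cases ha : a = v
      · subst ha
        exact Or.inr ⟨b, ⟨h1, h2⟩, rfl, rfl⟩
      · by_cases hb : b = v
        · subst hb
          exact Or.inl (Or.inr ⟨a, ⟨h1, h2⟩, rfl, rfl⟩)
        · exact Or.inl (Or.inl ⟨h1, h2, ha, hb⟩)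
    · rintro ((⟨h1, h2, _, _⟩ | ⟨u, ⟨h1, h2⟩, rfl, rfl⟩) | ⟨w, ⟨h1, h2⟩, rfl, rfl⟩)
      · exact ⟨h1, h2⟩
      · exact ⟨h1, h2⟩
      · exact ⟨h1, h2⟩
  rw [h1, card_union_of_disjoint, card_union_of_disjoint, card_image_of_injective,
    card_image_of_injective]
  · intro a b h; simpa using h
  · intro a b h; simpa using h
  · rw [disjoint_left]
    rintro ⟨a, b⟩ h2 h3
    simp only [mem_filter, mem_univ, true_and, mem_image, Prod.mk.injEq] at h2 h3
    obtain ⟨u, _, _, rfl⟩ := h3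
    exact h2.2.2.2 rfl
  · rw [disjoint_left]
    rintro ⟨a, b⟩ h2 h3
    simp only [mem_filter, mem_univ, true_and, mem_image, Prod.mk.injEq, mem_union, nI, nO]
      at h2 h3
    obtain ⟨w, ⟨hw, _⟩, rfl, rfl⟩ := h3
    rcases h2 with h2 | ⟨u, ⟨hu, _⟩, rfl, rfl⟩
    · exact h2.2.2.1 rfl
    · exact hO _ _ hu hw

/-- no single vertex move improves a maximal configuration -/
theorem stable {O : V → V → Prop} (hO : ∀ x y, O x y → ¬ O y x) {s t : ℕ} {κ : V → Fin 3}
    {f : V → ℤ} (hmax : ∀ κ' f', score O s t κ' f' ≤ score O s t κ f) (v : V) (i : Fin 3) (q : ℤ) :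
    2 * (((nI O κ f v i q).card : ℤ) + ((nO O κ f v i q).card : ℤ)) + bon s t i ≤
      2 * (((nI O κ f v (κ v) (f v)).card : ℤ) + ((nO O κ f v (κ v) (f v)).card : ℤ)) +
        bon s t (κ v) := by
  have h := hmax (Function.update κ v i) (Function.update f v q)
  unfold score at h
  rw [count_split hO κ f v, count_split hO (Function.update κ v i) (Function.update f v q) v] at h
  have h1 : univ.filter (fun p : V × V => O p.1 p.2 ∧
      Cnt (Function.update κ v i) (Function.update f v q) p.1 p.2 ∧ p.1 ≠ v ∧ p.2 ≠ v) =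
      univ.filter (fun p : V × V => O p.1 p.2 ∧ Cnt κ f p.1 p.2 ∧ p.1 ≠ v ∧ p.2 ≠ v) := by
    ext ⟨a, b⟩
    simp only [mem_filter, mem_univ, true_and, Cnt]
    constructor
    · rintro ⟨h1, h2, h3, h4⟩
      simp only [Function.update_of_ne h3, Function.update_of_ne h4] at h2
      exact ⟨h1, h2, h3, h4⟩
    · rintro ⟨h1, h2, h3, h4⟩
      simp only [Function.update_of_ne h3, Function.update_of_ne h4]
      exact ⟨h1, h2, h3, h4⟩
  have h2 : nI O (Function.update κ v i) (Function.update f v q) v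
      (Function.update κ v i v) (Function.update f v q v) = nI O κ f v i q := by
    ext u
    simp only [nI, mem_filter, mem_univ, true_and, Function.update_self]
    constructor
    · rintro ⟨h1, h2⟩
      have hu : u ≠ v := fun h => hO _ _ h1 (h ▸ h1)
      simp only [Function.update_of_ne hu] at h2
      exact ⟨h1, h2⟩
    · rintro ⟨h1, h2⟩
      have hu : u ≠ v := fun h => hO _ _ h1 (h ▸ h1)
      simp only [Function.update_of_ne hu]
      exact ⟨h1, h2⟩
  have h3 : nO O (Function.update κ v i) (Function.update f v q) v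
      (Function.update κ v i v) (Function.update f v q v) = nO O κ f v i q := by
    ext u
    simp only [nO, mem_filter, mem_univ, true_and, Function.update_self]
    constructor
    · rintro ⟨h1, h2⟩
      have hu : u ≠ v := fun h => hO _ _ h1 (h ▸ h1)
      simp only [Function.update_of_ne hu] at h2
      exact ⟨h1, h2⟩
    · rintro ⟨h1, h2⟩
      have hu : u ≠ v := fun h => hO _ _ h1 (h ▸ h1)
      simp only [Function.update_of_ne hu]
      exact ⟨h1, h2⟩
  have h4 : ∑ w, bon s t (Function.update κ v i w) + bon s t (κ v) =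
      ∑ w, bon s t (κ w) + bon s t i := by
    rw [← Finset.add_sum_erase univ _ (mem_univ v),
      ← Finset.add_sum_erase univ (fun w => bon s t (κ w)) (mem_univ v)]
    have h5 : ∑ w ∈ univ.erase v, bon s t (Function.update κ v i w) =
        ∑ w ∈ univ.erase v, bon s t (κ w) := by
      apply sum_congr rfl
      intro w hw
      rw [Function.update_of_ne (ne_of_mem_erase hw)]
    rw [h5]
    simp only [Function.update_self]
    ring
  rw [h1, h2, h3] at h
  push_cast at h
  linarith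

/-- The median order partition. -/
theorem partition {O : V → V → Prop} (hO : ∀ x y, O x y → ¬ O y x) (s t : ℕ) :
    ∃ (κ : V → Fin 3) (f : V → ℤ),
      (∀ v, κ v = 0 → (univ.filter (fun u => O u v ∧ κ u = 0)).card < t) ∧
      (∀ v, κ v = 2 → (univ.filter (fun w => O v w ∧ κ w = 2)).card < s) ∧
      (∀ v, κ v = 1 →
        t ≤ (univ.filter (fun u => O u v ∧ (κ u = 0 ∨ (κ u = 1 ∧ f u < f v)))).card) ∧
      (∀ v, κ v = 1 →
        s ≤ (univ.filter (fun w => O v w ∧ (κ w = 2 ∨ (κ w = 1 ∧ f v < f w)))).card) ∧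
      (∀ f' : V → ℤ, (univ.filter (fun p : V × V =>
          (O p.1 p.2 ∧ κ p.1 = 1 ∧ κ p.2 = 1) ∧ f' p.1 < f' p.2)).card ≤
        (univ.filter (fun p : V × V =>
          (O p.1 p.2 ∧ κ p.1 = 1 ∧ κ p.2 = 1) ∧ f p.1 < f p.2)).card) := by
  obtain ⟨κ, f, hmax⟩ := exists_max O s t
  have hst := stable hO hmax
  have h3 : ∀ i : Fin 3, i = 0 ∨ i = 1 ∨ i = 2 := by decide
  have hlt0 : ∀ i : Fin 3, (0 < i ↔ (i = 1 ∨ i = 2)) := by decide
  have hlt1 : ∀ i : Fin 3, (1 < i ↔ i = 2) := by decide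
  have hlt1' : ∀ i : Fin 3, (i < 1 ↔ i = 0) := by decide
  have hlt2 : ∀ i : Fin 3, (i < 2 ↔ (i = 0 ∨ i = 1)) := by decide
  have hn0 : ∀ i : Fin 3, ¬ i < 0 := by decide
  have hn2 : ∀ i : Fin 3, ¬ 2 < i := by decide
  refine ⟨κ, f, ?_, ?_, ?_, ?_, ?_⟩
  · intro v hv
    -- a height below all others
    obtain ⟨q, hq⟩ : ∃ q : ℤ, ∀ w, q < f w := by
      refine ⟨- ∑ w, |f w| - 1, fun w => ?_⟩
      have : |f w| ≤ ∑ w, |f w| := single_le_sum (fun i _ => abs_nonneg (f i)) (mem_univ w)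
      have := neg_abs_le (f w)
      linarith
    have h := hst v 1 q
    have e1 : nI O κ f v 1 q = univ.filter (fun u => O u v ∧ κ u = 0) := by
      ext u
      simp only [nI, mem_filter, mem_univ, true_and, hlt1']
      constructor
      · rintro ⟨h1, h2 | ⟨_, h2⟩⟩
        · exact ⟨h1, h2⟩
        · exact absurd h2 (not_lt.2 (hq u).le)
      · rintro ⟨h1, h2⟩
        exact ⟨h1, Or.inl h2⟩
    have e2 : nO O κ f v 1 q = univ.filter (fun w => O v w ∧ 0 < κ w) := by
      ext u
      simp only [nO, mem_filter, mem_univ, true_and, hlt1, hlt0]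
      constructor
      · rintro ⟨h1, h2 | ⟨h2, _⟩⟩
        · exact ⟨h1, Or.inr h2⟩
        · exact ⟨h1, Or.inl h2⟩
      · rintro ⟨h1, h2 | h2⟩
        · exact ⟨h1, Or.inr ⟨h2, hq u⟩⟩
        · exact ⟨h1, Or.inl h2⟩
    have e3 : nI O κ f v (κ v) (f v) = ∅ := by
      rw [hv]
      ext u
      simp only [nI, mem_filter, mem_univ, true_and, notMem_empty, iff_false]
      rintro ⟨_, h2 | ⟨_, h2, _⟩⟩
      · exact hn0 _ h2
      · exact absurd h2 (by decide)
    have e4 : nO O κ f v (κ v) (f v) = univ.filter (fun w => O v w ∧ 0 < κ w) := by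
      rw [hv]
      ext u
      simp only [nO, mem_filter, mem_univ, true_and]
      constructor
      · rintro ⟨h1, h2 | ⟨h2, _⟩⟩
        · exact ⟨h1, h2⟩
        · exact absurd h2 (by decide)
      · rintro ⟨h1, h2⟩
        exact ⟨h1, Or.inl h2⟩
    rw [e1, e2, e3, e4, hv] at h
    have b0 : bon s t 0 = 2 * (t : ℤ) - 1 := by simp [bon]
    have b1 : bon s t 1 = 0 := by simp [bon]
    rw [b0, b1] at h
    simp only [card_empty] at h
    push_cast at h
    omega
  · intro v hv
    obtain ⟨q, hq⟩ : ∃ q : ℤ, ∀ w, f w < q := by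
      refine ⟨∑ w, |f w| + 1, fun w => ?_⟩
      have : |f w| ≤ ∑ w, |f w| := single_le_sum (fun i _ => abs_nonneg (f i)) (mem_univ w)
      have := le_abs_self (f w)
      linarith
    have h := hst v 1 q
    have e1 : nO O κ f v 1 q = univ.filter (fun u => O v u ∧ κ u = 2) := by
      ext u
      simp only [nO, mem_filter, mem_univ, true_and, hlt1]
      constructor
      · rintro ⟨h1, h2 | ⟨_, h2⟩⟩
        · exact ⟨h1, h2⟩
        · exact absurd h2 (not_lt.2 (hq u).le)
      · rintro ⟨h1, h2⟩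
        exact ⟨h1, Or.inl h2⟩
    have e2 : nI O κ f v 1 q = univ.filter (fun w => O w v ∧ κ w < 2) := by
      ext u
      simp only [nI, mem_filter, mem_univ, true_and, hlt1', hlt2]
      constructor
      · rintro ⟨h1, h2 | ⟨h2, _⟩⟩
        · exact ⟨h1, Or.inl h2⟩
        · exact ⟨h1, Or.inr h2⟩
      · rintro ⟨h1, h2 | h2⟩
        · exact ⟨h1, Or.inl h2⟩
        · exact ⟨h1, Or.inr ⟨h2, hq u⟩⟩
    have e3 : nO O κ f v (κ v) (f v) = ∅ := by
      rw [hv]
      ext u
      simp only [nO, mem_filter, mem_univ, true_and, notMem_empty, iff_false]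
      rintro ⟨_, h2 | ⟨h2, _⟩⟩
      · exact hn2 _ h2
      · exact absurd h2 (by decide)
    have e4 : nI O κ f v (κ v) (f v) = univ.filter (fun w => O w v ∧ κ w < 2) := by
      rw [hv]
      ext u
      simp only [nI, mem_filter, mem_univ, true_and]
      constructor
      · rintro ⟨h1, h2 | ⟨_, h2, _⟩⟩
        · exact ⟨h1, h2⟩
        · exact absurd h2 (by decide)
      · rintro ⟨h1, h2⟩
        exact ⟨h1, Or.inl h2⟩
    rw [e1, e2, e3, e4, hv] at h
    have b0 : bon s t 2 = 2 * (s : ℤ) - 1 := by simp [bon]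
    have b1 : bon s t 1 = 0 := by simp [bon]
    rw [b0, b1] at h
    simp only [card_empty] at h
    push_cast at h
    omega
  · intro v hv
    have h := hst v 0 0
    have e1 : nI O κ f v (κ v) (f v) =
        univ.filter (fun u => O u v ∧ (κ u = 0 ∨ (κ u = 1 ∧ f u < f v))) := by
      rw [hv]
      ext u
      simp [nI, hlt1']
    have e2 : (nO O κ f v (κ v) (f v)).card ≤ (nO O κ f v 0 0).card := by
      rw [hv]
      apply card_le_card
      intro w hw
      simp only [nO, mem_filter, mem_univ, true_and] at hw ⊢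
      refine ⟨hw.1, Or.inl ?_⟩
      rw [hlt0]
      rcases hw.2 with h2 | ⟨h2, _⟩
      · exact Or.inr ((hlt1 _).1 h2)
      · exact Or.inl h2
    rw [hv] at h e2
    rw [← e1, hv]
    have b0 : bon s t 0 = 2 * (t : ℤ) - 1 := by simp [bon]
    have b1 : bon s t 1 = 0 := by simp [bon]
    rw [b0, b1] at h
    have e5 : (0 : ℤ) ≤ ((nI O κ f v 0 0).card : ℤ) := by positivity
    have e2' : ((nO O κ f v 1 (f v)).card : ℤ) ≤ ((nO O κ f v 0 0).card : ℤ) := by
      exact_mod_cast e2
    omega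
  · intro v hv
    have h := hst v 2 0
    have e1 : nO O κ f v (κ v) (f v) =
        univ.filter (fun w => O v w ∧ (κ w = 2 ∨ (κ w = 1 ∧ f v < f w))) := by
      rw [hv]
      ext u
      simp [nO, hlt1]
    have e2 : (nI O κ f v (κ v) (f v)).card ≤ (nI O κ f v 2 0).card := by
      rw [hv]
      apply card_le_card
      intro w hw
      simp only [nI, mem_filter, mem_univ, true_and] at hw ⊢
      refine ⟨hw.1, Or.inl ?_⟩
      rw [hlt2]
      rcases hw.2 with h2 | ⟨h2, _⟩
      · exact Or.inl ((hlt1' _).1 h2)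
      · exact Or.inr h2
    rw [hv] at h e2
    rw [← e1, hv]
    have b0 : bon s t 2 = 2 * (s : ℤ) - 1 := by simp [bon]
    have b1 : bon s t 1 = 0 := by simp [bon]
    rw [b0, b1] at h
    have e5 : (0 : ℤ) ≤ ((nO O κ f v 2 0).card : ℤ) := by positivity
    have e2' : ((nI O κ f v 1 (f v)).card : ℤ) ≤ ((nI O κ f v 2 0).card : ℤ) := by
      exact_mod_cast e2
    omega
  · intro f'
    have h := hmax κ f'
    unfold score at h
    have e : ∀ g : V → ℤ, (univ.filter (fun p : V × V => O p.1 p.2 ∧ Cnt κ g p.1 p.2)).card =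
        (univ.filter (fun p : V × V => O p.1 p.2 ∧ κ p.1 < κ p.2)).card +
        (univ.filter (fun p : V × V =>
          (O p.1 p.2 ∧ κ p.1 = 1 ∧ κ p.2 = 1) ∧ g p.1 < g p.2)).card := by
      intro g
      rw [← card_union_of_disjoint]
      · congr 1
        ext ⟨a, b⟩
        simp only [mem_filter, mem_univ, true_and, mem_union, Cnt]
        constructor
        · rintro ⟨h1, h2 | ⟨h2, h3, h4⟩⟩
          · exact Or.inl ⟨h1, h2⟩
          · exact Or.inr ⟨⟨h1, h2, h3⟩, h4⟩
        · rintro (⟨h1, h2⟩ | ⟨⟨h1, h2, h3⟩, h4⟩)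
          · exact ⟨h1, Or.inl h2⟩
          · exact ⟨h1, Or.inr ⟨h2, h3, h4⟩⟩
      · rw [disjoint_left]
        rintro ⟨a, b⟩ h1 h2
        simp only [mem_filter, mem_univ, true_and] at h1 h2
        rw [h2.1.2.1, h2.1.2.2] at h1
        exact absurd h1.2 (by decide)
    rw [e f, e f'] at h
    push_cast at h
    have : ((univ.filter (fun p : V × V =>
          (O p.1 p.2 ∧ κ p.1 = 1 ∧ κ p.2 = 1) ∧ f' p.1 < f' p.2)).card : ℤ) ≤
        ((univ.filter (fun p : V × V =>
          (O p.1 p.2 ∧ κ p.1 = 1 ∧ κ p.2 = 1) ∧ f p.1 < f p.2)).card : ℤ) := by linarith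
    exact_mod_cast this

end Pool.Helper75.Havet
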