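import Pool.Agent.Helper75.Havet.Inside

/-!
# Both sides at a common centre
-/

set_option autoImplicit false

namespace Pool.Helper75.Havet

open Finset Pool.Helper56.Havet
open scoped Classical

variable {V : Type} [Fintype V]

/-- number of colours of one side -/
noncomputable def cost {ι : Type} (Λ : Finset ι) (a : ι → ℕ) (j : ℕ) : ℕ :=
  if j = 0 then 2 * Λ.card - 1
  else (2 * (Λ.filter (fun w => a w < j)).card - 1) + (j + 2 * (Λ.filter (fun w => a w = j)).card)

theorem exists_sides {O : V → V → Prop} (hO : ∀ x y, O x y → ¬ O y x)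
    {ι : Type} (Λ Λ' : Finset ι) (a a' : ι → ℕ) (j j' : ℕ)
    (ha : ∀ w ∈ Λ, a w ≤ j) (ha' : ∀ w ∈ Λ', a' w ≤ j')
    (hfront : ∀ w ∈ Λ, a w < j → a w ≤ (Λ.filter (fun w' => a w' < a w)).card)
    (hfront' : ∀ w ∈ Λ', a' w < j' → a' w ≤ (Λ'.filter (fun w' => a' w' < a' w)).card)
    (hcol : ¬ Col O univ (cost Λ a j + cost Λ' a' j')) :
    ∃ (c : V) (P : V → Prop) (x : ℕ → V) (ψ : ι → V) (y : ℕ → V) (χ : ι → V), ¬ P c ∧
      (x j = c ∧ (∀ m < j, O (x m) (x (m + 1))) ∧ (∀ w ∈ Λ, O (ψ w) (x (a w))) ∧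
        (∀ m m', m ≤ j → m' ≤ j → x m = x m' → m = m') ∧ Set.InjOn ψ Λ ∧
        (∀ w ∈ Λ, ∀ m ≤ j, ψ w ≠ x m) ∧ (∀ m < j, P (x m)) ∧ (∀ w ∈ Λ, P (ψ w))) ∧
      (y j' = c ∧ (∀ m < j', O (y (m + 1)) (y m)) ∧ (∀ w ∈ Λ', O (y (a' w)) (χ w)) ∧
        (∀ m m', m ≤ j' → m' ≤ j' → y m = y m' → m = m') ∧ Set.InjOn χ Λ' ∧
        (∀ w ∈ Λ', ∀ m ≤ j', χ w ≠ y m) ∧ (∀ m < j', ¬ P (y m)) ∧ (∀ w ∈ Λ', ¬ P (χ w))) := by
  obtain ⟨t, ht⟩ : ∃ t, t = if j = 0 then Λ.card else (Λ.filter (fun w => a w < j)).card :=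
    ⟨_, rfl⟩
  obtain ⟨s, hs⟩ : ∃ s, s = if j' = 0 then Λ'.card else (Λ'.filter (fun w => a' w < j')).card :=
    ⟨_, rfl⟩
  obtain ⟨κ, f, h1, h2, h3, h4, h5⟩ := partition hO s t
  obtain ⟨R, hR⟩ : ∃ R : V → V → Prop, ∀ u w, R u w ↔ (O u w ∧ κ u = 1 ∧ κ w = 1) :=
    ⟨_, fun _ _ => Iff.rfl⟩
  have hmax : ∀ f' : V → ℤ, (univ.filter (fun p : V × V => R p.1 p.2 ∧ f' p.1 < f' p.2)).card ≤
        (univ.filter (fun p : V × V => R p.1 p.2 ∧ f p.1 < f p.2)).card := by
    intro f'
    have e : ∀ g : V → ℤ, univ.filter (fun p : V × V => R p.1 p.2 ∧ g p.1 < g p.2) =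
        univ.filter (fun p : V × V => (O p.1 p.2 ∧ κ p.1 = 1 ∧ κ p.2 = 1) ∧ g p.1 < g p.2) := by
      intro g
      ext p
      simp only [mem_filter, hR]
    rw [e, e]
    exact h5 f'
  have htle : (Λ.filter (fun w => a w < j)).card ≤ t := by
    rw [ht]
    split_ifs
    · exact card_filter_le _ _
    · exact le_rfl
  have hsle : (Λ'.filter (fun w => a' w < j')).card ≤ s := by
    rw [hs]
    split_ifs
    · exact card_filter_le _ _
    · exact le_rfl
  obtain ⟨B, hB, hB'⟩ := inside hO κ f hR hmax Λ a j ha hfront t htle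
    (fun h => by rw [ht, if_pos h]) h3
  -- the flipped graph
  have hO' : ∀ x y, (fun u v => O v u) x y → ¬ (fun u v => O v u) y x := fun x y h h' => hO _ _ h' h
  have hR' : ∀ u w, R w u ↔ ((fun u v => O v u) u w ∧ (fun v => (κ v).rev) u = 1 ∧
      (fun v => (κ v).rev) w = 1) := by
    have h6 : ∀ i : Fin 3, i.rev = 1 ↔ i = 1 := by decide
    intro u w
    simp only [hR, h6]
    tauto
  have hmax' : ∀ f' : V → ℤ,
      (univ.filter (fun p : V × V => R p.2 p.1 ∧ f' p.1 < f' p.2)).card ≤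
        (univ.filter (fun p : V × V => R p.2 p.1 ∧ (fun v => - f v) p.1 < (fun v => - f v) p.2)).card := by
    intro f'
    have e : ∀ g : V → ℤ, (univ.filter (fun p : V × V => R p.2 p.1 ∧ g p.1 < g p.2)).card =
        (univ.filter (fun p : V × V => R p.1 p.2 ∧ (- g p.1) < (- g p.2))).card := by
      intro g
      apply card_bij (fun p _ => (p.2, p.1))
      · intro p hp
        simp only [mem_filter, mem_univ, true_and] at hp ⊢
        exact ⟨hp.1, by linarith [hp.2]⟩
      · intro p _ q _ h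
        simp only [Prod.mk.injEq] at h
        exact Prod.ext h.2 h.1
      · intro p hp
        simp only [mem_filter, mem_univ, true_and] at hp
        refine ⟨(p.2, p.1), ?_, rfl⟩
        simp only [mem_filter, mem_univ, true_and]
        exact ⟨hp.1, by linarith [hp.2]⟩
    rw [e f', e (fun v => - f v)]
    simp only [neg_neg]
    exact hmax (fun v => - f' v)
  have h4' : ∀ v, (fun v => (κ v).rev) v = 1 →
      s ≤ (univ.filter (fun u => (fun u v => O v u) u v ∧ ((fun v => (κ v).rev) u = 0 ∨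
        ((fun v => (κ v).rev) u = 1 ∧ (fun v => - f v) u < (fun v => - f v) v)))).card := by
    have h6 : ∀ i : Fin 3, i.rev = 1 ↔ i = 1 := by decide
    have h7 : ∀ i : Fin 3, i.rev = 0 ↔ i = 2 := by decide
    intro v hv
    refine (h4 v ((h6 _).1 hv)).trans (le_of_eq ?_)
    congr 1
    ext u
    simp only [mem_filter, mem_univ, true_and, h6, h7, neg_lt_neg_iff]
  obtain ⟨B', hC, hC'⟩ := inside hO' (fun v => (κ v).rev) (fun v => - f v) hR' hmax' Λ' a' j' ha'
    hfront' s hsle (fun h => by rw [hs, if_pos h]) h4'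
  -- colourings
  have c0 : Col O (univ.filter (fun v => κ v = 0)) (2 * t - 1) := by
    rcases Nat.eq_zero_or_pos t with h0 | h0
    · refine ⟨fun _ => 0, ?_, ?_⟩
      · intro v hv
        have := h1 v (mem_filter.1 hv).2
        omega
      · intro v hv
        have := h1 v (mem_filter.1 hv).2
        omega
    · refine (col_of_in hO (t - 1) _ ?_).mono (Subset.refl _) (by omega)
      intro v hv
      have h6 := h1 v (mem_filter.1 hv).2
      have h7 : ((univ.filter (fun v => κ v = 0)).filter (fun y => O y v)).card ≤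
          (univ.filter (fun u => O u v ∧ κ u = 0)).card := by
        apply card_le_card
        intro u hu
        simp only [mem_filter, mem_univ, true_and] at hu ⊢
        exact ⟨hu.2, hu.1⟩
      omega
  have c2 : Col O (univ.filter (fun v => κ v = 2)) (2 * s - 1) := by
    rcases Nat.eq_zero_or_pos s with h0 | h0
    · refine ⟨fun _ => 0, ?_, ?_⟩
      · intro v hv
        have := h2 v (mem_filter.1 hv).2
        omega
      · intro v hv
        have := h2 v (mem_filter.1 hv).2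
        omega
    · refine (col_of_out hO (s - 1) _ ?_).mono (Subset.refl _) (by omega)
      intro v hv
      have h6 := h2 v (mem_filter.1 hv).2
      have h7 : ((univ.filter (fun v => κ v = 2)).filter (fun y => O v y)).card ≤
          (univ.filter (fun u => O v u ∧ κ u = 2)).card := by
        apply card_le_card
        intro u hu
        simp only [mem_filter, mem_univ, true_and] at hu ⊢
        exact ⟨hu.2, hu.1⟩
      omega
  obtain ⟨c, hc1, hc2, hc3⟩ : ∃ c, κ c = 1 ∧ c ∉ B ∧ c ∉ B' := by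
    by_contra hcon
    push Not at hcon
    apply hcol
    refine (((c0.union c2).union hB).union hC.flip).mono ?_ ?_
    · intro v _
      have h6 : ∀ i : Fin 3, i = 0 ∨ i = 1 ∨ i = 2 := by decide
      simp only [mem_union, mem_filter, mem_univ, true_and]
      rcases h6 (κ v) with h | h | h
      · exact Or.inl (Or.inl (Or.inl h))
      · by_cases hvB : v ∈ B
        · exact Or.inl (Or.inr hvB)
        · exact Or.inr (hcon v h hvB)
      · exact Or.inl (Or.inl (Or.inr h))
    · unfold cost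
      rw [ht, hs]
      split_ifs <;> omega
  have h6 : ∀ i : Fin 3, i.rev = 1 ↔ i = 1 := by decide
  have h7 : ∀ i : Fin 3, i.rev = 0 ↔ i = 2 := by decide
  obtain ⟨x, ψ, X1, X2, X3, X4, X5, X6, X7, X8⟩ := hB' c hc1 hc2
  obtain ⟨y, χ, Y1, Y2, Y3, Y4, Y5, Y6, Y7, Y8⟩ := hC' c ((h6 _).2 hc1) hc3
  refine ⟨c, fun z => κ z = 0 ∨ (κ z = 1 ∧ f z < f c), x, ψ, y, χ, ?_,
    ⟨X1, X2, X3, X4, X5, X6, fun m hm => Or.inr (X7 m hm), X8⟩,
    ⟨Y1, Y2, Y3, Y4, Y5, Y6, ?_, ?_⟩⟩
  · rintro (h | h)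
    · rw [hc1] at h; exact absurd h (by decide)
    · exact absurd h.2 (lt_irrefl _)
  · intro m hm h
    obtain ⟨h8, h9⟩ := Y7 m hm
    have h8' := (h6 _).1 h8
    rcases h with h | h
    · rw [h8'] at h; exact absurd h (by decide)
    · have h10 := h.2
      simp only [neg_lt_neg_iff] at h9
      exact absurd h9 (not_lt.2 h10.le)
  · intro w hw h
    rcases Y8 w hw with h8 | ⟨h8, h9⟩
    · have h8' := (h7 _).1 h8
      rcases h with h | h
      · rw [h8'] at h; exact absurd h (by decide)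
      · rw [h8'] at h; exact absurd h.1 (by decide)
    · have h8' := (h6 _).1 h8
      rcases h with h | h
      · rw [h8'] at h; exact absurd h (by decide)
      · have h10 := h.2
        simp only [neg_lt_neg_iff] at h9
        exact absurd h9 (not_lt.2 h10.le)

end Pool.Helper75.Havet
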